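import Pool.Agent.Q105.SH.Far

/-!
# Admissible complexes
-/

set_option autoImplicit false

namespace Pool.Agent.Q105.SH

open Pool.Agent.W497.FS Pool.Agent.W497.CC

/-- the number of faces with `j` vertices -/
def numFaces {n : ℕ} (S : Finset (Finset (Fin n))) (j : ℕ) : ℕ :=
  (S.filter (fun G => G.card = j)).card

/-- The flag sphere `S` of dimension `2 m - 1` has a join factor of odd rank (a join factor `C` such
that each facet `G` meets `C` in `e` vertices, `e` odd), or every join factor `C`, of dimension
`e - 1`, has `e ≤ 2` or at most `max (2 e + 6) (3 e)` vertices. -/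
def SmallFactors (m : ℕ) {n : ℕ} (S : Finset (Finset (Fin n))) : Prop :=
  (∃ C : Finset (Fin n), IsFactor S C ∧ ∃ G ∈ S, G.card = 2 * m ∧ Odd (G ∩ C).card) ∨
    ∀ C : Finset (Fin n), IsFactor S C → (∀ F ∈ S, F ⊆ C → F.card ≤ 2) ∨
      ∃ F ∈ S, F ⊆ C ∧ C.card ≤ max (2 * F.card + 6) (3 * F.card)

/-- The admissible complexes `S` of dimension `2 m - 1`. -/
inductive Adm {n : ℕ} : ℕ → Finset (Finset (Fin n)) → Prop
  /-- at most `5 m + 3` vertices -/
  | few {m : ℕ} {S : Finset (Finset (Fin n))} : numVert S ≤ 5 * m + 3 → Adm m S
  /-- small join factors, or one of odd rank -/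
  | factors {m : ℕ} {S : Finset (Finset (Fin n))} : SmallFactors m S → Adm m S
  /-- complexes of dimension three with `f₁ - 5 f₀ + 16 ≥ 0`; by the theorem of Davis and Okun these
  are all the flag homology spheres of dimension three over the rationals -/
  | four {S : Finset (Finset (Fin n))} : 5 * numFaces S 1 ≤ numFaces S 2 + 16 → Adm 2 S
  /-- there is a vertex `v` from which no tetrahedron is far, such that the links of all the edges far
  from `v` are admissible -/
  | far {m : ℕ} {S : Finset (Finset (Fin n))} (v : Fin n) : {v} ∈ S →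
      (∀ G, IsFar S v G → G.card ≤ 3) →
      (∀ E, IsFar S v E → E.card = 2 → Adm m (link S E)) → Adm (m + 1) S

/-- the Charney–Davis inequality for the admissible flag homology spheres -/
theorem Adm.cd {k : Type} [Field k] {n m : ℕ} {S : Finset (Finset (Fin n))} (h : Adm m S) :
    IsFlagSphere k (2 * m) S → 0 ≤ (-1) ^ m * omega S := by
  induction h with
  | few h => exact fun hS => cd_two hS h
  | factors h =>
    intro hS
    rcases h with h | h
    · rw [Y365.FS.cd_odd hS h, mul_zero]
    · exact Y365.FS.cd_factors hS fun C hC => Or.inr (h C hC)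
  | four h => exact fun hS => cd_rank_four hS h
  | @far m S v hv hm _ ih =>
    intro hS
    refine cd_step hS v hv hm fun E hE hc => ih E hE hc ?_
    exact link_sphere hS hE.1 (by rw [hc]; ring)

end Pool.Agent.Q105.SH
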