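import Pool.Agent.TH709.GG.Sph8
import Pool.Agent.TH709.GG.Main
import Pool.Agent.W497.CC.Sum

/-!
# Cubical manifolds whose vertex links satisfy the Charney–Davis inequality
-/

set_option autoImplicit false

namespace Pool.Agent.Q105.SH

open Pool.Agent.W497.FS Pool.Agent.W497.CC Pool.Agent.TH709.GG Pool.Agent.TH709.GG.F3

/-- the inequality for the Euler characteristic follows from the one for the vertex links -/
theorem chi_nonneg (m : ℕ) (P : Type) [Fintype P] [PartialOrder P] (dim : P → ℕ)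
    (hP : IsCubical P dim)
    (hL : ∀ v : P, dim v = 0 → ∃ (n : ℕ) (S : Finset (Finset (Fin n))), IsLink v S ∧
      (∀ F ∈ S, ∀ G : Finset (Fin n), G ⊆ F → G ∈ S) ∧ 0 ≤ (-1) ^ m * omega S) :
    0 ≤ (-1) ^ m * chi P dim := by
  classical
  have h1 : ∀ v : P, ∃ p : Σ n : ℕ, Finset (Finset (Fin n)), dim v = 0 →
      IsLink v p.2 ∧ (∀ F ∈ p.2, ∀ G : Finset (Fin p.1), G ⊆ F → G ∈ p.2) ∧
        0 ≤ (-1) ^ m * omega p.2 := by
    intro v
    by_cases hv : dim v = 0
    · obtain ⟨n, S, h⟩ := hL v hv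
      exact ⟨⟨n, S⟩, fun _ => h⟩
    · exact ⟨⟨0, ∅⟩, fun h => absurd h hv⟩
  choose p hp using h1
  have h2 := chi_eq hP (fun v => (p v).1) (fun v => (p v).2) (fun v hv => (hp v hv).1)
    (fun v hv => (hp v hv).2.1)
  have h3 : (0 : ℚ) ≤ (-1) ^ m * ((chi P dim : ℤ) : ℚ) := by
    rw [h2, Finset.mul_sum]
    exact Finset.sum_nonneg fun v hv => (hp v (Finset.mem_filter.mp hv).2).2.2
  exact_mod_cast h3

/-- the Charney–Davis quantity is the last entry of the gamma-vector, up to a factor -/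
theorem cd_of_gamma {k : Type} [Field k] {n m : ℕ} {S : Finset (Finset (Fin n))}
    (hS : IsFlagSphere k (2 * m) S) {γ : ℕ → ℤ} (hγ : IsGamma (2 * m) S γ) (h : 0 ≤ γ m) :
    0 ≤ (-1) ^ m * omega S := by
  have hEP := ep_of_np hS.np hS.eul
  obtain ⟨a, ha⟩ := ep_FP_exp hEP (empty_mem_cl (H := skel S) (W := vert S))
  have e1 : lkF (skel S) (vert S) ∅ = vert S := by
    ext x
    rw [mem_lkF]
    exact ⟨fun h => h.1, fun h => ⟨h, by simp⟩⟩
  rw [e1, Finset.card_empty, Nat.sub_zero] at ha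
  have h2 := hS.gamma_eq hγ ha m (by omega)
  rw [hS.omega_eq, ← aeval_FP, ha, aeval_even, ← h2]
  have h3 : (-1 : ℚ) ^ m * ((γ m : ℤ) * (-1 / 4) ^ m) = (γ m : ℤ) * (1 / 4) ^ m := by
    rw [← neg_pow_quarter m]; ring
  rw [h3]
  have h4 : (0 : ℚ) ≤ ((γ m : ℤ) : ℚ) := by exact_mod_cast h
  positivity

/-- the gamma-vectors of the links, extended by zero -/
theorem exists_gammas {k : Type} [Field k] {n d : ℕ} {S : Finset (Finset (Fin n))}
    (hS : IsFlagSphere k d S) : ∃ g : Finset (Fin n) → ℕ → ℤ,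
      ∀ F ∈ S, IsGamma (d - F.card) (link S F) (g F) ∧ ∀ i, d < 2 * i + F.card → g F i = 0 := by
  classical
  have hex := exists_g hS
  refine ⟨fun F => if h : F ∈ S then (hex F h).choose else 0, fun F hF => ?_⟩
  have h1 : (fun F => if h : F ∈ S then (hex F h).choose else 0) F = (hex F hF).choose :=
    dif_pos hF
  rw [h1]
  exact (hex F hF).choose_spec

theorem link_empty {n : ℕ} (S : Finset (Finset (Fin n))) : link S ∅ = S := by
  ext G
  rw [link, Finset.mem_filter]
  simp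

theorem empty_mem {k : Type} [Field k] {n d : ℕ} {S : Finset (Finset (Fin n))}
    (hS : IsFlagSphere k d S) : (∅ : Finset (Fin n)) ∈ S := by
  rw [← hS.cl_eq]; exact empty_mem_cl

theorem down {k : Type} [Field k] {n d : ℕ} {S : Finset (Finset (Fin n))}
    (hS : IsFlagSphere k d S) : ∀ F ∈ S, ∀ G : Finset (Fin n), G ⊆ F → G ∈ S := by
  obtain ⟨r, hr⟩ := hS
  exact hr.1

/-- the Charney–Davis inequality for the spheres which satisfy the criterion with far faces -/
theorem cd_pairs {k : Type} [Field k] {n m : ℕ} {S : Finset (Finset (Fin n))}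
    (hS : IsFlagSphere k (2 * m) S)
    (h4 : ∀ F ∈ S, F.card + 4 = 2 * m → 5 * ((link S F).filter (fun G => G.card = 1)).card ≤
      ((link S F).filter (fun G => G.card = 2)).card + 16)
    (P : Finset (Fin n) → Finset (Fin n) → Prop) (h0 : P ∅ ∅)
    (hv : ∀ F ∈ S, ∀ T ∈ link S F, P F T → F.card + 5 ≤ 2 * m → (T = ∅ → F.card + 6 ≤ 2 * m) →
      ∃ v, insert v T ∈ link S F ∧ (∀ G, IsFar (link S F) v G → G.card ≤ 3) ∧
        (v ∉ T → P (insert v F) T) ∧ ((T = ∅ → F.card + 7 ≠ 2 * m) →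
        (∀ E, IsFar (link S F) v E → E.card = 2 →
          P (F ∪ E) (T.filter (fun x => insert x (F ∪ E) ∈ S))) ∧
        (∀ R, IsFar (link S F) v R → R.card = 3 → ∀ t ∈ R,
          P (F ∪ R.erase t) (insert t (T.filter (fun x => insert x (F ∪ R) ∈ S)))))) :
    0 ≤ (-1) ^ m * omega S := by
  obtain ⟨g, hg⟩ := exists_gammas hS
  have h1 := sphereQ hS hg h4 P (fun F hF T hT hP h5 h6 => Or.inr (hv F hF T hT hP h5 h6)) ∅
    (empty_mem hS) ∅ (by rw [link_empty]; exact empty_mem hS) h0 m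
  rw [Finset.powerset_empty, Finset.sum_singleton, Finset.card_empty, pow_zero, one_mul,
    Finset.union_empty] at h1
  have h2 := (hg ∅ (empty_mem hS)).1
  rw [Finset.card_empty, Nat.sub_zero, link_empty] at h2
  exact cd_of_gamma hS h2 h1

/-- the Charney–Davis inequality for the spheres in the class `Cls` -/
theorem cd_cls {k : Type} [Field k] {n m : ℕ} {S : Finset (Finset (Fin n))}
    (hS : IsFlagSphere k (2 * m) S) (hC : Cls (2 * m) (Fin n) (skel S) (vert S)) :
    0 ≤ (-1) ^ m * omega S := by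
  obtain ⟨g, hg⟩ := exists_gammas hS
  have h1 := (sphere_total hS hC g (fun F hF => (hg F hF).1)).1 m (by omega)
  have h2 := (hg ∅ (empty_mem hS)).1
  rw [Finset.card_empty, Nat.sub_zero, link_empty] at h2
  exact cd_of_gamma hS h2 h1

end Pool.Agent.Q105.SH
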