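import Pool.Agent.Q105.SH.Base
import Pool.Agent.W497.FS.Nice
import Pool.Agent.Y365.FS.Odd

/-!
# The Charney–Davis inequality along the edges which are far from a vertex
-/

set_option autoImplicit false

namespace Pool.Agent.Q105.SH

open Pool.Agent.W497.FS Pool.Agent.W497.CC Pool.Agent.TH709.GG Pool.Agent.TH709.GG.F3

/-- the link of a face of a flag homology sphere is a flag homology sphere -/
theorem link_sphere {k : Type} [Field k] {n d e : ℕ} {S : Finset (Finset (Fin n))}
    (hS : IsFlagSphere k d S) {F : Finset (Fin n)} (hF : F ∈ S) (he : e + F.card = d) :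
    IsFlagSphere k e (link S F) := by
  obtain ⟨r, h1, h2, h3, h4⟩ := hS
  have mem : ∀ G, G ∈ link S F ↔ Disjoint G F ∧ G ∪ F ∈ S := by
    intro G
    rw [link, Finset.mem_filter]
    exact ⟨fun h => h.2, fun h => ⟨h1 _ h.2 G Finset.subset_union_left, h⟩⟩
  refine ⟨r, ?_, ?_, h3, ?_⟩
  · intro G hG K hK
    rw [mem] at hG ⊢
    exact ⟨hG.1.mono_left hK, h1 _ hG.2 _ (Finset.union_subset_union_left hK)⟩
  · intro G hG
    rw [mem]
    have hd : Disjoint G F := by
      rw [Finset.disjoint_left]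
      intro a ha haF
      have h5 := (mem _).1 (hG a ha a ha)
      exact Finset.disjoint_left.1 h5.1 (by simp) haF
    refine ⟨hd, h2 _ fun a ha b hb => ?_⟩
    rcases Finset.mem_union.1 ha with ha' | ha' <;> rcases Finset.mem_union.1 hb with hb' | hb'
    · exact h1 _ ((mem _).1 (hG a ha' b hb')).2 _ Finset.subset_union_left
    · refine h1 _ ((mem _).1 (hG a ha' a ha')).2 _ fun x hx => ?_
      rcases Finset.mem_insert.1 hx with h | h
      · rw [h]; simp
      · rw [Finset.mem_singleton.1 h]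
        exact Finset.mem_union_right _ hb'
    · refine h1 _ ((mem _).1 (hG b hb' b hb')).2 _ fun x hx => ?_
      rcases Finset.mem_insert.1 hx with h | h
      · rw [h]
        exact Finset.mem_union_right _ ha'
      · rw [Finset.mem_singleton.1 h]; simp
    · exact h1 _ hF _ fun x hx => by
        rcases Finset.mem_insert.1 hx with h | h
        · rwa [h]
        · rwa [Finset.mem_singleton.1 h]
  · intro G hG j
    have hG' := (mem G).1 hG
    have e1 : (link S F).filter (fun K => Disjoint K G ∧ K ∪ G ∈ link S F) =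
        S.filter (fun K => Disjoint K (G ∪ F) ∧ K ∪ (G ∪ F) ∈ S) := by
      ext K
      rw [Finset.mem_filter, Finset.mem_filter, mem, mem, Finset.disjoint_union_left,
        Finset.disjoint_union_right, Finset.union_assoc]
      constructor
      · rintro ⟨⟨h5, h6⟩, h7, ⟨h8, h9⟩, h10⟩
        exact ⟨h1 _ h6 K Finset.subset_union_left, ⟨h7, h8⟩, h10⟩
      · rintro ⟨h5, ⟨h6, h7⟩, h8⟩
        refine ⟨⟨h7, h1 _ h8 _ ?_⟩, h6, ⟨h7, hG'.1⟩, h8⟩
        exact Finset.union_subset_union_right Finset.subset_union_right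
    rw [e1]
    have h5 := h4 (G ∪ F) hG'.2 j
    rw [h5, Finset.card_union_of_disjoint hG'.1]
    by_cases h6 : j + G.card = e
    · rw [if_pos h6, if_pos (by omega)]
    · rw [if_neg h6, if_neg (by omega)]

/-- the step: the inequality for the links of the edges far from a vertex -/
theorem cd_step {k : Type} [Field k] {n m : ℕ} {S : Finset (Finset (Fin n))}
    (hS : IsFlagSphere k (2 * (m + 1)) S) (v : Fin n) (hv : {v} ∈ S)
    (hm : ∀ G, IsFar S v G → G.card ≤ 3)
    (h : ∀ E, IsFar S v E → E.card = 2 → 0 ≤ (-1) ^ m * omega (link S E)) :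
    0 ≤ (-1) ^ (m + 1) * omega S := by
  have hcl := hS.cl_eq
  have hv' : v ∈ vert S := mem_vert.2 hv
  have hfar : ∀ κ, κ ∈ cl (skel S) (nn (skel S) (vert S) v) ↔ IsFar S v κ := by
    intro κ
    rw [← far_iff hv', hcl]
  rw [hS.omega_eq, lam_vertex_small hS.eul hv' (fun κ hκ => hm κ ((hfar κ).1 hκ))]
  have e1 : (-1 : ℚ) ^ (m + 1) * (-1 / 4 * ∑ κ ∈ (cl (skel S) (nn (skel S) (vert S) v)).filter
      (fun κ => κ.card = 2), lam (skel S) (lkF (skel S) (vert S) κ)) =
      1 / 4 * ∑ κ ∈ (cl (skel S) (nn (skel S) (vert S) v)).filter (fun κ => κ.card = 2),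
        (-1) ^ m * lam (skel S) (lkF (skel S) (vert S) κ) := by
    rw [← Finset.mul_sum, pow_succ]; ring
  rw [e1]
  refine mul_nonneg (by norm_num) (Finset.sum_nonneg (fun κ hκ => ?_))
  obtain ⟨hκ1, hκ2⟩ := Finset.mem_filter.1 hκ
  have h1 := (hfar κ).1 hκ1
  have h2 := h κ h1 hκ2
  have h3 : κ ∈ cl (skel S) (vert S) := by
    rw [hcl]
    exact h1.1
  have h4 : omega (link S κ) = lam (skel S) (lkF (skel S) (vert S) κ) := by
    have h5 := link_cl h3
    rw [hcl] at h5
    rw [h5, omega, lam, fe]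
    refine Finset.sum_congr rfl (fun σ _ => ?_)
    rw [← div_pow]
  rwa [h4] at h2

/-- the inequality of Davis and Okun is the Charney–Davis inequality in rank four -/
theorem cd_rank_four {k : Type} [Field k] {n : ℕ} {S : Finset (Finset (Fin n))}
    (hS : IsFlagSphere k 4 S)
    (h : 5 * (S.filter (fun G => G.card = 1)).card ≤ (S.filter (fun G => G.card = 2)).card + 16) :
    0 ≤ (-1) ^ 2 * omega S := by
  have hEP := ep_of_np hS.np hS.eul
  have hcl := hS.cl_eq
  have h1 : (S.filter (fun G => G.card = 1)).card = (vert S).card := numVert_eq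
  rw [h1] at h
  have h2 := (EP.tm4 hEP (by rwa [hcl])).mem ∅ ∅ (Finset.disjoint_empty_left _)
    (by rw [Finset.empty_union]; exact empty_mem_cl) 4 (by simp)
  rw [D_empty] at h2
  have e1 : lkF (skel S) (vert S) ∅ = vert S := by
    ext x
    rw [mem_lkF]
    exact ⟨fun h => h.1, fun h => ⟨h, by simp⟩⟩
  rw [e1] at h2
  rw [hS.omega_eq]
  exact lam_nonneg_of_GT (n := 2) h2

end Pool.Agent.Q105.SH
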