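import Pool.Agent.Q105.SH.Adm
import Pool.Agent.Y365.FS.Sph

/-!
# Manifolds tiled by Coxeter polytopes: the Euler characteristic
-/

set_option autoImplicit false

namespace Pool.Agent.Q105.SH

open Pool.Agent.W497.FS Pool.Agent.TH709.GG Pool.Agent.TH709.GG.F3

/-- the number of vertices of a cell -/
noncomputable def numBelow {P : Type} [Fintype P] [PartialOrder P] (dim : P → ℕ) (c : P) : ℕ := by
  classical
  exact (Finset.univ.filter (fun v : P => dim v = 0 ∧ v ≤ c)).card

/-- the alternating number of cells -/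
def euler (P : Type) [Fintype P] (dim : P → ℕ) : ℤ := ∑ c : P, (-1 : ℤ) ^ dim c

open scoped Classical in
/-- the Euler characteristic is the sum over the vertices of the weighted quantities of the links -/
theorem euler_eq {P : Type} [Fintype P] [PartialOrder P] (dim : P → ℕ)
    (hv : ∀ c : P, ∃ v, dim v = 0 ∧ v ≤ c) (om : P → ℚ)
    (h : ∀ v : P, dim v = 0 → om v = ∑ c ∈ Finset.univ.filter (fun c : P => v ≤ c),
      (-1 : ℚ) ^ dim c / numBelow dim c) :
    ((euler P dim : ℤ) : ℚ) = ∑ v ∈ Finset.univ.filter (fun v : P => dim v = 0), om v := by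
  have h1 : ((euler P dim : ℤ) : ℚ) = ∑ c : P, ∑ v ∈ Finset.univ.filter (fun v : P => dim v = 0),
      (if v ≤ c then (-1 : ℚ) ^ dim c / numBelow dim c else 0) := by
    unfold euler
    push_cast
    refine Finset.sum_congr rfl fun c _ => ?_
    rw [← Finset.sum_filter, Finset.filter_filter, Finset.sum_const, nsmul_eq_mul]
    have h2 : (numBelow dim c : ℚ) ≠ 0 := by
      rw [Nat.cast_ne_zero, numBelow]
      obtain ⟨v, hv1, hv2⟩ := hv c
      exact Finset.card_ne_zero_of_mem (Finset.mem_filter.2 ⟨Finset.mem_univ v, hv1, hv2⟩)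
    have h3 : ((Finset.univ.filter (fun v : P => dim v = 0 ∧ v ≤ c)).card : ℚ) =
      numBelow dim c := rfl
    rw [h3]
    field_simp
  rw [h1, Finset.sum_comm]
  refine Finset.sum_congr rfl fun v hv => ?_
  rw [h v (Finset.mem_filter.1 hv).2, ← Finset.sum_filter]

/-- the cells at the vertex `v` are described by the faces of `S` and the numbers `N` -/
def CellsAt {P : Type} [Fintype P] [PartialOrder P] (dim : P → ℕ) (v : P) {n : ℕ}
    (S : Finset (Finset (Fin n))) (N : Finset (Fin n) → ℚ) : Prop :=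
  ∃ e : {x : P // v ≤ x} ≃ {F : Finset (Fin n) // F ∈ S},
    (∀ x y, x.1 ≤ y.1 ↔ (e x).1 ⊆ (e y).1) ∧
    ∀ x, dim x.1 = (e x).1.card ∧ (numBelow dim x.1 : ℚ) = N (e x).1

open scoped Classical in
theorem CellsAt.sum {P : Type} [Fintype P] [PartialOrder P] {dim : P → ℕ} {v : P} {n : ℕ}
    {S : Finset (Finset (Fin n))} {N : Finset (Fin n) → ℚ} (h : CellsAt dim v S N) :
    ∑ c ∈ Finset.univ.filter (fun c : P => v ≤ c), (-1 : ℚ) ^ dim c / numBelow dim c =
      ∑ σ ∈ S, (-1) ^ σ.card / N σ := by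
  obtain ⟨e, -, he⟩ := h
  symm
  refine Finset.sum_bij (fun F hF => (e.symm ⟨F, hF⟩).1) ?_ ?_ ?_ ?_
  · intro F hF
    simp only [Finset.mem_filter, Finset.mem_univ, true_and]
    exact (e.symm ⟨F, hF⟩).2
  · intro F hF F' hF' h
    have h2 := e.symm.injective (Subtype.ext h)
    exact congrArg Subtype.val h2
  · intro c hc
    simp only [Finset.mem_filter, Finset.mem_univ, true_and] at hc
    exact ⟨(e ⟨c, hc⟩).1, (e ⟨c, hc⟩).2, by simp⟩
  · intro F hF
    have h1 := he (e.symm ⟨F, hF⟩)
    rw [Equiv.apply_symm_apply] at h1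
    rw [h1.1, h1.2]

/-- the weighted inequality, if the links of the faces of even size satisfy the Charney–Davis
inequality -/
theorem weighted_of_links {k : Type} [Field k] {n m : ℕ} {S : Finset (Finset (Fin n))}
    (hS : IsFlagSphere k (2 * m) S)
    (hL : ∀ F ∈ S, ∀ j, F.card + 2 * j = 2 * m → 0 ≤ (-1) ^ j * omega (link S F))
    {N : Finset (Fin n) → ℚ} (hN : Y365.FS.GoodOrders S N) :
    0 ≤ (-1) ^ m * ∑ σ ∈ S, (-1) ^ σ.card / N σ := by
  have hcl := hS.cl_eq
  have hEP := ep_of_np hS.np hS.eul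
  have h0 := Y365.FS.weighted_eq (H := skel S) N (vert S)
  rw [hcl] at h0
  rw [h0, Finset.mul_sum]
  refine Finset.sum_nonneg fun T hT => ?_
  rcases Nat.even_or_odd T.card with ⟨j, hj⟩ | ho
  · have hc : T.card ≤ 2 * m := hS.card_le T hT
    obtain ⟨l, hl⟩ : ∃ l, m = j + l := ⟨m - j, by omega⟩
    have h1 := (hN T hT).2 j (by omega)
    have h2 := hL T hT l (by omega)
    have h5 : omega (link S T) = lam (skel S) (lkF (skel S) (vert S) T) := by
      have h5 := link_cl (H := skel S) (X := vert S) (E := T) (by rwa [hcl])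
      rw [hcl] at h5
      rw [h5, omega, lam, fe]
      refine Finset.sum_congr rfl (fun σ _ => ?_)
      rw [← div_pow]
    rw [h5] at h2
    have h3 : (-1 : ℚ) ^ m * ((-1) ^ T.card * Y365.FS.bN N T *
        lam (skel S) (lkF (skel S) (vert S) T)) = ((-1) ^ j * Y365.FS.bN N T) *
        ((-1) ^ l * lam (skel S) (lkF (skel S) (vert S) T)) := by
      have h4 : (-1 : ℚ) ^ T.card = 1 := by rw [hj]; exact Even.neg_one_pow ⟨j, rfl⟩
      rw [hl, h4, pow_add]; ring
    rw [h3]
    exact mul_nonneg h1 h2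
  · rw [(hN T hT).1 ho]
    simp

/-- the links of the faces of the members of the class -/
theorem cd_links_of_cls {k : Type} [Field k] {n m : ℕ} {S : Finset (Finset (Fin n))}
    (hS : IsFlagSphere k (2 * m) S) (hC : Cls (2 * m) (Fin n) (skel S) (vert S)) :
    ∀ F ∈ S, ∀ j, F.card + 2 * j = 2 * m → 0 ≤ (-1) ^ j * omega (link S F) := by
  intro F hF j hj
  have hcl := hS.cl_eq
  have hF' : F ∈ cl (skel S) (vert S) := by rwa [hcl]
  have h5 := link_cl (H := skel S) (X := vert S) (E := F) hF'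
  rw [hcl] at h5
  have h6 : omega (link S F) = lam (skel S) (lkF (skel S) (vert S) F) := by
    rw [h5, omega, lam, fe]
    refine Finset.sum_congr rfl (fun σ _ => ?_)
    rw [← div_pow]
  rw [h6]
  have h7 := hC.tm.mem F ∅ (Finset.disjoint_empty_right _) (by rwa [Finset.union_empty]) (2 * j)
    (by omega)
  rw [D_empty] at h7
  exact lam_nonneg_of_GT h7

end Pool.Agent.Q105.SH
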